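import Pool.Agent.H74.BTL.Targets

/-!
# MP_60ff71_an: module LEF (a vertex of degree one in a forest)
-/

set_option autoImplicit false

open scoped ENNReal RealInnerProductSpace
open Filter Topology

universe u

namespace Pool.Agent.H11.BTL

open Pool.Agent.H74.BTL

theorem pf_LEF : T_LEF.{u} := by
  classical
  intro V ι E a b hE hli
  have hab : ∀ e ∈ E, a e ≠ b e := by
    intro e he h
    refine hli.ne_zero ⟨e, he⟩ ?_
    simp [h]
  obtain ⟨V0, hV0⟩ : ∃ V0 : Finset V, V0 = E.image a ∪ E.image b := ⟨_, rfl⟩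
  have ha : ∀ e ∈ E, a e ∈ V0 := fun e he => by
    rw [hV0]
    exact Finset.mem_union_left _ (Finset.mem_image_of_mem a he)
  have hb : ∀ e ∈ E, b e ∈ V0 := fun e he => by
    rw [hV0]
    exact Finset.mem_union_right _ (Finset.mem_image_of_mem b he)
  obtain ⟨e1, he1⟩ := hE
  -- the number of edges
  have hcard : E.card + 1 ≤ V0.card := by
    let vec : Option E → (V →₀ ℝ) := fun o => o.elim (Finsupp.single (a e1) 1)
      fun e => Finsupp.single (b e) 1 - Finsupp.single (a e) 1
    let S : (V →₀ ℝ) →ₗ[ℝ] ℝ := Finsupp.lsum ℝ fun _ : V => LinearMap.id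
    have hS : ∀ (v : V) (c : ℝ), S (Finsupp.single v c) = c := by
      intro v c
      simp [S]
    have hvec : LinearIndependent ℝ vec := by
      rw [linearIndependent_option]
      refine ⟨hli, fun h => ?_⟩
      change Finsupp.single (a e1) (1 : ℝ) ∈ Submodule.span ℝ (Set.range fun e : E =>
        (Finsupp.single (b e) 1 - Finsupp.single (a e) 1 : V →₀ ℝ)) at h
      have h1 : Submodule.span ℝ (Set.range fun e : E =>
          (Finsupp.single (b e) 1 - Finsupp.single (a e) 1 : V →₀ ℝ)) ≤ LinearMap.ker S := by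
        rw [Submodule.span_le]
        rintro _ ⟨e, rfl⟩
        show S _ = 0
        rw [map_sub, hS, hS, sub_self]
      have h2 := h1 h
      rw [LinearMap.mem_ker, hS] at h2
      exact one_ne_zero h2
    have h3 := linearIndependent_iff_card_le_finrank_span.1 hvec
    have h4 : Submodule.span ℝ (Set.range vec) ≤ Submodule.span ℝ
        ((V0.image fun v => (Finsupp.single v 1 : V →₀ ℝ) : Finset (V →₀ ℝ)) :
          Set (V →₀ ℝ)) := by
      have hm : ∀ v ∈ V0, (Finsupp.single v 1 : V →₀ ℝ) ∈ Submodule.span ℝ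
          ((V0.image fun v => (Finsupp.single v 1 : V →₀ ℝ) : Finset (V →₀ ℝ)) :
            Set (V →₀ ℝ)) := fun v hv =>
        Submodule.subset_span (Finset.mem_coe.2 (Finset.mem_image_of_mem _ hv))
      rw [Submodule.span_le]
      rintro _ ⟨o, rfl⟩
      rcases o with _ | e
      · exact hm _ (ha e1 he1)
      · exact Submodule.sub_mem _ (hm _ (hb e e.2)) (hm _ (ha e e.2))
    have h5 := Submodule.finrank_mono h4
    have h6 := finrank_span_finset_le_card (R := ℝ)
      (V0.image fun v => (Finsupp.single v 1 : V →₀ ℝ))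
    have h7 : (V0.image fun v => (Finsupp.single v 1 : V →₀ ℝ)).card ≤ V0.card :=
      Finset.card_image_le
    rw [Fintype.card_option, Fintype.card_coe] at h3
    exact h3.trans (h5.trans (h6.trans h7))
  have hdeg : ∃ v ∈ V0, (E.filter fun e => a e = v ∨ b e = v).card ≤ 1 := by
    by_contra hcon
    push Not at hcon
    have h1 : ∑ v ∈ V0, (E.filter fun e => a e = v ∨ b e = v).card =
        ∑ e ∈ E, (V0.filter fun v => a e = v ∨ b e = v).card := by
      simp_rw [Finset.card_filter]
      exact Finset.sum_comm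
    have h2 : ∀ e ∈ E, (V0.filter fun v => a e = v ∨ b e = v).card = 2 := by
      intro e he
      have : V0.filter (fun v => a e = v ∨ b e = v) = {a e, b e} := by
        ext v
        simp only [Finset.mem_filter, Finset.mem_insert, Finset.mem_singleton]
        constructor
        · rintro ⟨_, h | h⟩
          · exact Or.inl h.symm
          · exact Or.inr h.symm
        · rintro (rfl | rfl)
          · exact ⟨ha e he, Or.inl rfl⟩
          · exact ⟨hb e he, Or.inr rfl⟩
      rw [this, Finset.card_pair (hab e he)]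
    rw [Finset.sum_congr rfl h2, Finset.sum_const, smul_eq_mul] at h1
    have h3 : V0.card * 2 ≤ ∑ v ∈ V0, (E.filter fun e => a e = v ∨ b e = v).card := by
      rw [← smul_eq_mul, ← Finset.sum_const]
      exact Finset.sum_le_sum fun v hv => hcon v hv
    omega
  obtain ⟨v, hv, hv1⟩ := hdeg
  have hne : (E.filter fun e => a e = v ∨ b e = v).Nonempty := by
    rw [hV0, Finset.mem_union, Finset.mem_image, Finset.mem_image] at hv
    rcases hv with ⟨e, he, h⟩ | ⟨e, he, h⟩
    · exact ⟨e, Finset.mem_filter.2 ⟨he, Or.inl h⟩⟩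
    · exact ⟨e, Finset.mem_filter.2 ⟨he, Or.inr h⟩⟩
  obtain ⟨e0, he0⟩ := hne
  have hall : ∀ e ∈ E, a e = v ∨ b e = v → e = e0 := fun e he h =>
    Finset.card_le_one.1 hv1 e (Finset.mem_filter.2 ⟨he, h⟩) e0 he0
  obtain ⟨he0E, h0⟩ := Finset.mem_filter.1 he0
  refine ⟨v, e0, he0E, ?_, fun e he hne => ?_⟩
  · rcases h0 with h | h
    · exact Or.inl ⟨h, fun h' => hab e0 he0E (h.trans h'.symm)⟩
    · exact Or.inr ⟨h, fun h' => hab e0 he0E (h'.trans h.symm)⟩
  · constructor
    · intro h
      exact hne (hall e he (Or.inl h))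
    · intro h
      exact hne (hall e he (Or.inr h))

end Pool.Agent.H11.BTL
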