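import Pool.Agent.H74.BTL.Targets

/-!
# MP_60ff71_an: module UIN (a family with spectral gap generates an infinite group)
-/

set_option autoImplicit false

open scoped ENNReal RealInnerProductSpace
open Filter Topology

universe u

namespace Pool.Agent.H11.BTL

open Pool.Agent.H74.BTL

theorem pf_UIN : T_UIN.{u} := by
  intro G _ J _ _ t r hr hC
  by_contra hfin
  rw [not_infinite_iff_finite] at hfin
  obtain ⟨U, hU⟩ : ∃ U : Subgroup G, U = Subgroup.closure (Set.range t) := ⟨_, rfl⟩
  rw [← hU] at hfin
  have htU : ∀ j, t j ∈ U := fun j => by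
    rw [hU]
    exact Subgroup.subset_closure ⟨j, rfl⟩
  have hsum : Summable fun x : G => (ind (x ∈ U)) ^ 2 := by
    apply summable_of_hasFiniteSupport
    have hUf : (U : Set G).Finite := Set.toFinite _
    refine hUf.subset fun x hx => ?_
    by_contra h
    apply hx
    have h' : ¬ (x ∈ U) := h
    simp [ind_false h']
  let f : L2 G := ⟨fun x => ind (x ∈ U), memL2 hsum⟩
  have hf : ∀ x, f x = ind (x ∈ U) := fun x => rfl
  have hrt : ∀ j, rt (t j) f = f := by
    intro j
    ext x
    rw [rt_apply, hf, hf]
    congr 1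
    exact propext (Subgroup.mul_mem_cancel_right U (htU j))
  have h1 := hC f
  simp only [hrt, Finset.sum_const, Finset.card_univ] at h1
  rw [← Nat.cast_smul_eq_nsmul ℝ, norm_smul, Real.norm_eq_abs, abs_of_nonneg (by positivity)] at h1
  have hn : 0 < ‖f‖ := by
    rw [norm_pos_iff]
    intro h0
    have h2 : f 1 = (1 : ℝ) := by
      rw [hf, ind_true U.one_mem]
    rw [h0] at h2
    simp at h2
  have hJ : 0 < (Fintype.card J : ℝ) := Nat.cast_pos.2 Fintype.card_pos
  have h3 : 0 < Fintype.card J * ‖f‖ := mul_pos hJ hn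
  nlinarith

end Pool.Agent.H11.BTL
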